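import Mathlib
import Pool.Agent.H.MP_a2bed5_pr.A
open MeasureTheory Set
namespace Pool.Agent.Results.MP_a2bed5_pr.Convex

/-- workloads after the arriving customer joins server 0 and time t elapses, before sorting -/
def unsorted {n : ℕ} (w : Fin (n+1) → ℝ) (s t : ℝ) : Fin (n+1) → ℝ :=
  fun j => max (w j + (if j = 0 then s else 0) - t) 0

/-- the Kiefer-Wolfowitz map -/
noncomputable def step {n : ℕ} (w : Fin (n+1) → ℝ) (s t : ℝ) : Fin (n+1) → ℝ :=
  unsorted w s t ∘ Tuple.sort (unsorted w s t)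

theorem result (n : ℕ) (μS μT : Measure ℝ) [IsProbabilityMeasure μS] [IsProbabilityMeasure μT]
    (hS : μS (Iio 0) = 0) (hT : μT (Iio 0) = 0) (hT0 : μT (Ioi 0) ≠ 0)
    (π : Measure (Fin (n+1) → ℝ)) [IsProbabilityMeasure π]
    (hst : (π.prod (μS.prod μT)).map (fun x => step x.1 x.2.1 x.2.2) = π)
    (i j l : Fin (n+1)) (hij : (j : ℕ) = i + 1) (hjl : (l : ℕ) = j + 1) :
    2 * (∫⁻ w, ENNReal.ofReal (w j) ∂π) ≤
      (∫⁻ w, ENNReal.ofReal (w i) ∂π) + (∫⁻ w, ENNReal.ofReal (w l) ∂π) :=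
  Pool.Agent.H.MP_a2bed5_pr.main π μS μT _ hS hT hT0
    (fun _ => ⟨Tuple.monotone_sort _, Tuple.sort _, rfl⟩) hst i j l hij hjl

end Pool.Agent.Results.MP_a2bed5_pr.Convex
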